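import Mathlib
import Pool.Agent.HRLog.Defs
import Pool.Agent.HRLog.Main

/-!
# The critical Hardy-Rellich inequality with logarithmic weight fails for `k = 2`, `N ≥ 64`

For radial `u(x) = Φ(τ)`, `τ = (N-2) log (R/|x|)`, one has
`Δu = (N-2)^2 |x|^{-2} (Φ'' - Φ')`, so that inequality (i) becomes
`C ∫ |Φ|^p τ^{-2p} dτ ≤ ∫ |Φ'' - Φ'|^p dτ` with `p = N/2` and
`C^{1/p} = (1-1/p)(2-1/p)`. The drift term makes it possible that `|Φ'' - Φ'| ≤ 1`
while `Φ ≥ 0.597 τ^2` on an interval, and `0.597 * (1-1/p)(2-1/p) > 1.13`.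
-/

namespace Pool.Agent.Results.MP_ec5c38_an.FailsForLargeN

open MeasureTheory Set Filter Topology Laplacian InnerProductSpace Pool.Agent.HRLog
open scoped ENNReal

lemma const_bound {N : ℕ} (hN : 64 ≤ N) :
    60 < constC N 2 * (597/1000 : ℝ) ^ ((N : ℝ) / 2) := by
  have hN' : (64:ℝ) ≤ N := by exact_mod_cast hN
  have hC : constC N 2 = ((((N:ℝ) - 2) / N) * ((2 * (N:ℝ) - 2) / N)) ^ ((N : ℝ) / 2) := by
    unfold constC
    rw [show (Finset.Icc 1 2 : Finset ℕ) = {1, 2} by decide, Finset.prod_pair (by norm_num)]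
    norm_num
  have h1 : 0 ≤ ((N:ℝ) - 2) / N := div_nonneg (by linarith) (by linarith)
  have h2 : 0 ≤ (2 * (N:ℝ) - 2) / N := div_nonneg (by linarith) (by linarith)
  rw [hC, ← Real.mul_rpow (mul_nonneg h1 h2) (by norm_num)]
  have hbase : (1138/1000 : ℝ) ≤ ((N:ℝ) - 2) / N * ((2 * (N:ℝ) - 2) / N) * (597/1000) := by
    have e : ((N:ℝ) - 2) / N * ((2 * (N:ℝ) - 2) / N) * (597/1000) =
        (((N:ℝ) - 2) * (2 * (N:ℝ) - 2) * 597) / (1000 * (N:ℝ) ^ 2) := by
      field_simp
    rw [e, le_div_iff₀ (by positivity)]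
    nlinarith
  calc (60:ℝ) < (1138/1000 : ℝ) ^ 32 := by norm_num
    _ = (1138/1000 : ℝ) ^ (32 : ℝ) := by rw [← Real.rpow_natCast]; norm_num
    _ ≤ (1138/1000 : ℝ) ^ ((N : ℝ) / 2) :=
        Real.rpow_le_rpow_of_exponent_le (by norm_num) (by linarith)
    _ ≤ _ := Real.rpow_le_rpow (by norm_num) hbase (by linarith)

lemma sq_rpow_half {y : ℝ} (hy : 0 ≤ y) (N : ℕ) : (y ^ 2) ^ ((N : ℝ) / 2) = y ^ N := by
  rw [← Real.rpow_natCast y 2, ← Real.rpow_mul hy, ← Real.rpow_natCast y N]
  congr 1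
  push_cast
  ring

/-- For `k = 2` and every `N ≥ 64`, `R > 0`, part (i) fails: some `u ∈ C_c^2(B_R)` violates the
critical Hardy-Rellich inequality with constant `C_{N,2}`. -/
theorem result (N : ℕ) (hN : 64 ≤ N) (R : ℝ) (hR : 0 < R) : ¬ HardyRellich N 2 R := by
  intro H
  have hN' : (64:ℝ) ≤ N := by exact_mod_cast hN
  have hc : (0:ℝ) < (N:ℝ) - 2 := by linarith
  have hNh : (0:ℝ) < (N:ℝ) / 2 := by linarith
  -- the support
  have hsub : tsupport (tu N R) ⊆ Metric.ball 0 R := by
    refine (tsupport_tu hN hR).trans ?_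
    apply Metric.closedBall_subset_ball
    have : Real.exp (-(1/1000) / ((N:ℝ) - 2)) < 1 := by
      rw [Real.exp_lt_one_iff]
      apply div_neg_of_neg_of_pos (by norm_num) hc
    calc R * Real.exp (-(1/1000) / ((N:ℝ) - 2)) < R * 1 := mul_lt_mul_of_pos_left this hR
      _ = R := mul_one R
  have hcomp : HasCompactSupport (tu N R) :=
    (isCompact_closedBall (0 : EuclideanSpace ℝ (Fin N)) _).of_isClosed_subset
      (isClosed_tsupport _) (tsupport_tu hN hR)
  have h := H (tu N R) (contDiff_tu hN hR) hcomp hsub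
  obtain ⟨κ, hκ, hshell⟩ := shell_lintegral (N := N) (by omega)
  set c : ℝ := (N:ℝ) - 2 with hcdef
  -- upper bound of the right-hand side
  have hrin : 0 < rin N R := by unfold rin; positivity
  have hrinR : rin N R < R := by
    unfold rin
    have : Real.exp (-12 / ((N:ℝ) - 2)) < 1 := by
      rw [Real.exp_lt_one_iff]
      exact div_neg_of_neg_of_pos (by norm_num) hc
    calc R * Real.exp (-12 / ((N:ℝ) - 2)) < R * 1 := mul_lt_mul_of_pos_left this hR
      _ = R := mul_one R
  have hS : MeasurableSet {x : EuclideanSpace ℝ (Fin N) | rin N R ≤ ‖x‖ ∧ ‖x‖ < R} :=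
    (measurableSet_le measurable_const measurable_norm).inter
      (measurableSet_lt measurable_norm measurable_const)
  have hup : ∫⁻ x in Metric.ball (0 : EuclideanSpace ℝ (Fin N)) R,
        ENNReal.ofReal (absNabla 2 (tu N R) x ^ ((N : ℝ) / (2:ℕ))) ≤
      ENNReal.ofReal (c ^ N) * ENNReal.ofReal (κ * Real.log (R / rin N R)) := by
    rw [← hshell (rin N R) R hrin hrinR, ← lintegral_const_mul' _ _ ENNReal.ofReal_ne_top,
      ← lintegral_indicator measurableSet_ball, ← lintegral_indicator hS]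
    apply lintegral_mono
    intro x
    by_cases hx : x ∈ Metric.ball (0 : EuclideanSpace ℝ (Fin N)) R
    · rw [indicator_of_mem hx]
      have hxR : ‖x‖ < R := by simpa using hx
      have habs : absNabla 2 (tu N R) x = |(Δ (tu N R)) x| := by
        unfold absNabla
        rw [if_pos even_two]
        rfl
      rw [habs]
      by_cases hx2 : rin N R ≤ ‖x‖
      · have hmem : x ∈ {x : EuclideanSpace ℝ (Fin N) | rin N R ≤ ‖x‖ ∧ ‖x‖ < R} := ⟨hx2, hxR⟩
        rw [indicator_of_mem hmem, ← ENNReal.ofReal_mul (by positivity)]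
        apply ENNReal.ofReal_le_ofReal
        have hx0 : 0 < ‖x‖ := lt_of_lt_of_le hrin hx2
        calc |(Δ (tu N R)) x| ^ ((N : ℝ) / (2:ℕ)) ≤ ((c / ‖x‖) ^ 2) ^ ((N : ℝ) / 2) := by
              push_cast
              apply Real.rpow_le_rpow (abs_nonneg _) _ hNh.le
              rw [div_pow]
              exact abs_laplacian_le hN hR hx2
          _ = c ^ N * (‖x‖ ^ N)⁻¹ := by
              rw [sq_rpow_half (by positivity), div_pow, div_eq_mul_inv]
      · rw [laplacian_zero hN hR (not_le.mp hx2), abs_zero, Real.zero_rpow (by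
          push_cast; exact hNh.ne'), ENNReal.ofReal_zero]
        exact zero_le
    · rw [indicator_of_notMem hx]
      exact zero_le
  -- lower bound of the left-hand side
  set a' : ℝ := R * Real.exp (-(4/5) / c) with ha'
  set b' : ℝ := R * Real.exp (-(3/5) / c) with hb'
  have ha0 : 0 < a' := by positivity
  have hab : a' < b' := by
    apply mul_lt_mul_of_pos_left _ hR
    apply Real.exp_lt_exp.mpr
    apply div_lt_div_of_pos_right _ hc
    norm_num
  have hbR : b' < R := by
    have : Real.exp (-(3/5) / c) < 1 := by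
      rw [Real.exp_lt_one_iff]
      exact div_neg_of_neg_of_pos (by norm_num) hc
    calc R * Real.exp (-(3/5) / c) < R * 1 := mul_lt_mul_of_pos_left this hR
      _ = R := mul_one R
  have hS' : MeasurableSet {x : EuclideanSpace ℝ (Fin N) | a' ≤ ‖x‖ ∧ ‖x‖ < b'} :=
    (measurableSet_le measurable_const measurable_norm).inter
      (measurableSet_lt measurable_norm measurable_const)
  set m : ℝ := (597/1000 : ℝ) ^ ((N : ℝ) / 2) with hm
  have hm0 : 0 < m := Real.rpow_pos_of_pos (by norm_num) _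
  have hlow : ENNReal.ofReal (m * c ^ N) * ENNReal.ofReal (κ * Real.log (b' / a')) ≤
      ∫⁻ x in Metric.ball (0 : EuclideanSpace ℝ (Fin N)) R,
        ENNReal.ofReal (|tu N R x| ^ ((N : ℝ) / (2:ℕ)) /
          (‖x‖ ^ N * Real.log (R / ‖x‖) ^ N)) := by
    rw [← hshell a' b' ha0 hab, ← lintegral_const_mul' _ _ ENNReal.ofReal_ne_top,
      ← lintegral_indicator measurableSet_ball, ← lintegral_indicator hS']
    apply lintegral_mono
    intro x
    by_cases hx : x ∈ {x : EuclideanSpace ℝ (Fin N) | a' ≤ ‖x‖ ∧ ‖x‖ < b'}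
    · rw [indicator_of_mem hx]
      have hxb : x ∈ Metric.ball (0 : EuclideanSpace ℝ (Fin N)) R := by
        rw [mem_ball_zero_iff]; exact hx.2.trans hbR
      rw [indicator_of_mem hxb, ← ENNReal.ofReal_mul (by positivity)]
      apply ENNReal.ofReal_le_ofReal
      obtain ⟨hlog, hge⟩ := tu_ge hN hR hx.1 hx.2
      have hx0 : 0 < ‖x‖ := lt_of_lt_of_le ha0 hx.1
      have h3 : m * (c * Real.log (R / ‖x‖)) ^ N ≤ |tu N R x| ^ ((N : ℝ) / (2:ℕ)) := by
        have e1 : m * (c * Real.log (R / ‖x‖)) ^ N =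
            (597/1000 * (c * Real.log (R / ‖x‖)) ^ 2) ^ ((N : ℝ) / 2) := by
          rw [Real.mul_rpow (by norm_num) (by positivity), sq_rpow_half (by positivity)]
        rw [e1]
        push_cast
        apply Real.rpow_le_rpow (by positivity) _ hNh.le
        exact hge.trans (le_abs_self _)
      rw [le_div_iff₀ (by positivity)]
      calc m * c ^ N * (‖x‖ ^ N)⁻¹ * (‖x‖ ^ N * Real.log (R / ‖x‖) ^ N)
          = m * (c * Real.log (R / ‖x‖)) ^ N := by
            rw [mul_pow]; field_simp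
        _ ≤ _ := h3
    · rw [indicator_of_notMem hx]
      exact zero_le
  -- comparison
  have hlog1 : Real.log (R / rin N R) = 12 / c := by
    unfold rin
    rw [Real.log_div hR.ne' (by positivity), Real.log_mul hR.ne' (Real.exp_pos _).ne',
      Real.log_exp]
    ring
  have hlog2 : Real.log (b' / a') = (1/5) / c := by
    rw [ha', hb', Real.log_div (by positivity) (by positivity),
      Real.log_mul hR.ne' (Real.exp_pos _).ne', Real.log_mul hR.ne' (Real.exp_pos _).ne',
      Real.log_exp, Real.log_exp]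
    ring
  rw [hlog1] at hup
  rw [hlog2] at hlow
  have hCnn : 0 < constC N 2 := by
    have := const_bound hN
    by_contra hcon
    push Not at hcon
    have h5 : constC N 2 * (597/1000 : ℝ) ^ ((N : ℝ) / 2) ≤ 0 :=
      mul_nonpos_of_nonpos_of_nonneg hcon hm0.le
    linarith
  have hfin : ENNReal.ofReal (constC N 2) *
      (ENNReal.ofReal (m * c ^ N) * ENNReal.ofReal (κ * ((1/5) / c))) ≤
      ENNReal.ofReal (c ^ N) * ENNReal.ofReal (κ * (12 / c)) := by
    refine (mul_le_mul_right hlow _).trans (h.trans hup)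
  rw [← ENNReal.ofReal_mul (by positivity), ← ENNReal.ofReal_mul hCnn.le,
    ← ENNReal.ofReal_mul (by positivity), ENNReal.ofReal_le_ofReal_iff (by positivity)] at hfin
  have hq : 0 < c ^ N * κ / c := by positivity
  have e1 : constC N 2 * (m * c ^ N * (κ * (1 / 5 / c))) =
      (constC N 2 * m / 5) * (c ^ N * κ / c) := by ring
  have e2 : c ^ N * (κ * (12 / c)) = 12 * (c ^ N * κ / c) := by ring
  rw [e1, e2] at hfin
  have h6 := le_of_mul_le_mul_right hfin hq
  have h7 := const_bound hN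
  linarith

end Pool.Agent.Results.MP_ec5c38_an.FailsForLargeN
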